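import Pool.Agent.Helper26_BSN.Defs2

/-!
# BSN, module JSN: soundness of certificates
-/

namespace Pool.Agent.BSN.H48

open Filter Cardinal Pool.Agent.BSig Pool.Agent.BSN

theorem jsn : JustSound := by
  intro F hF E
  induction E with
  | self =>
    intro x r h
    exact (hF _ _ _ h).1 rfl
  | left a iha =>
    intro x r h
    obtain ⟨s, h1, h2⟩ := (hF _ _ _ h).2.1 _ rfl
    rw [h2, iha x s h1]
    rfl
  | right a iha =>
    intro x r h
    obtain ⟨s, h1, h2⟩ := (hF _ _ _ h).2.2.1 _ rfl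
    rw [h2, iha x s h1]
    rfl
  | const c =>
    intro x r h
    exact (hF _ _ _ h).2.2.2.1 _ rfl
  | add a b iha ihb =>
    intro x r h
    obtain ⟨s, t, h1, h2, h3⟩ := (hF _ _ _ h).2.2.2.2.1 _ _ rfl
    rw [h3, iha x s h1, ihb x t h2]
    rfl
  | mul a b iha ihb =>
    intro x r h
    obtain ⟨s, t, h1, h2, h3⟩ := (hF _ _ _ h).2.2.2.2.2.1 _ _ rfl
    rw [h3, iha x s h1, ihb x t h2]
    rfl
  | pow a iha =>
    intro x r h
    obtain ⟨s, h1, h2⟩ := (hF _ _ _ h).2.2.2.2.2.2.1 _ rfl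
    rw [h2, iha x s h1]
    rfl
  | eq a b iha ihb =>
    intro x r h
    obtain ⟨s, t, h1, h2, h3⟩ := (hF _ _ _ h).2.2.2.2.2.2.2.1 _ _ rfl
    rw [iha x s h1, ihb x t h2] at h3
    simp only [Ex.val]
    rcases h3 with ⟨h4, h5⟩ | ⟨h4, h5⟩
    · rw [if_pos h4, h5]
    · rw [if_neg h4, h5]
  | le a b iha ihb =>
    intro x r h
    obtain ⟨s, t, h1, h2, h3⟩ := (hF _ _ _ h).2.2.2.2.2.2.2.2.1 _ _ rfl
    rw [iha x s h1, ihb x t h2] at h3
    simp only [Ex.val]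
    rcases h3 with ⟨h4, h5⟩ | ⟨h4, h5⟩
    · rw [if_pos h4, h5]
    · rw [if_neg (not_le.2 h4), h5]
  | not a iha =>
    intro x r h
    obtain ⟨s, h1, h3⟩ := (hF _ _ _ h).2.2.2.2.2.2.2.2.2.1 _ rfl
    rw [iha x s h1] at h3
    simp only [Ex.val]
    rcases h3 with ⟨h4, h5⟩ | ⟨h4, h5⟩
    · rw [if_pos h4, h5]
    · rw [if_neg h4, h5]
  | and a b iha ihb =>
    intro x r h
    obtain ⟨s, t, h1, h2, h3⟩ := (hF _ _ _ h).2.2.2.2.2.2.2.2.2.2.1 _ _ rfl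
    rw [iha x s h1, ihb x t h2] at h3
    simp only [Ex.val]
    rcases h3 with ⟨h4, h5⟩ | ⟨h4, h5⟩
    · rw [if_pos h4, h5]
    · rw [if_neg (fun h6 => h4.elim h6.1 h6.2), h5]
  | ball a b iha ihb =>
    intro x r h
    obtain ⟨s, h1, h3⟩ := (hF _ _ _ h).2.2.2.2.2.2.2.2.2.2.2 _ _ rfl
    rw [iha x s h1] at h3
    simp only [Ex.val]
    rcases h3 with ⟨h4, h5⟩ | ⟨h4, z, h5, h6⟩
    · rw [if_pos, h4]
      intro z hz
      obtain ⟨t, ht, h6⟩ := h5 z hz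
      rw [← ihb _ t h6]
      exact ht
    · rw [if_neg, h4]
      intro h7
      exact h7 z h5 (ihb _ 0 h6).symm

end Pool.Agent.BSN.H48
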