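import Pool.Agent.Helper26_BSN.Stmts

/-!
# BSN, module SCI: standard precisions and one infinite precision
-/

namespace Pool.Agent.BSN.H48

open Filter Cardinal Pool.Agent.BSig Pool.Agent.BSN

variable {τ : Tower}

theorem sci (hSC : SCStmt τ) : SciStmt τ := by
  intro R hR hmono
  constructor
  · intro h
    obtain ⟨β, hβ⟩ := hSC R hR ((aat τ) 0)
    have hi : Int1 (fun x : (MMt τ) => R ![x, β]) := by
      refine Int1.of_delta0 ?_
      have := hR.subst (l := 1) (F := ![fun v => v 0, fun _ => β]) (fun i => by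
        fin_cases i
        · exact IsTerm.var 0
        · exact IsTerm.param β)
      refine this.congr fun v => ?_
      have e : (fun i => (![fun v : Fin 1 → (MMt τ) => v 0, fun _ => β] : Fin 2 → (Fin 1 → (MMt τ)) → (MMt τ)) i v)
          = ![v 0, β] := by
        funext i
        fin_cases i <;> rfl
      rw [e]
    have h1 : ∀ n : ℕ, R ![(n : (MMt τ)), β] := by
      intro n
      obtain ⟨α, hα⟩ := h n
      obtain ⟨α', h2, h3⟩ := hβ n (infl_aa 0 n).le ⟨α, hα⟩
      exact hmono n n α' β le_rfl h2 h3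
    obtain ⟨y, hy, h2⟩ := hi.overspill h1
    exact ⟨y, β, hy, h2 y le_rfl⟩
  · rintro ⟨y, α, hy, h⟩ m
    exact ⟨α, hmono y m α α (hy m).le le_rfl h⟩

end Pool.Agent.BSN.H48
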